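import Pool.Agent.R944.TO.Stm
import Pool.Agent.R944.TO.Main
import Pool.Agent.R944.TO.Prv
import Pool.Agent.R944.TO.Idx
import Pool.Agent.R944.TO.Len
import Pool.Agent.R944.TO.FarR
import Pool.Agent.R944.TO.FarL
import Pool.Agent.R944.TO.Gap
import Pool.Agent.R944.TO.Exh
import Pool.Agent.R944.TO.Shift
import Pool.Agent.R944.TO.Mark
import Pool.Agent.R944.TO.One
import Pool.Agent.R944.TO.Tower
import Pool.Agent.R944.TO.Loc
import Pool.Agent.R944.TO.Closed
import Pool.Agent.R944.TO.Edist
import Pool.Agent.R944.TO.Chain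

/-!
Free continuous actions of `ℤ` on zero-dimensional Polish spaces admit `q`-toasts with closed
layers, for every `q`, such that moreover every ball is contained in a layer.
-/

open Set TopologicalSpace Pool.Agent.R944.TO

universe u

namespace Pool.Agent.Results.MP_03d3f2_lc.ClosedToasts

/-- The case `d = 1`, for every `q`: a `q`-toast with closed layers such that every ball of the
Schreier graph is contained in a layer. -/
theorem result (X : Type u) [TopologicalSpace X] [PolishSpace X] [AddAction (Fin 1 → ℤ) X]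
    [ContinuousConstVAdd (Fin 1 → ℤ) X]
    (hz : IsTopologicalBasis {s : Set X | IsClopen s})
    (hfree : ∀ (γ : Fin 1 → ℤ) (x : X), γ +ᵥ x = x → γ = 0) (q : ℕ) :
    ∃ T : ℕ → Set X, (∀ n, IsClosed (T n)) ∧ IsToast (schreier 1 X) q T ∧
      ∀ (x : X) (N : ℕ), ∃ n, ∀ y, (schreier 1 X).edist x y ≤ (N : ℕ∞) → y ∈ T n :=
  assembly Prv.main Idx.main Len.main FarR.main FarL.main Gap.main Exh.main Shift.main
    (Tower.main Mark.main (One.main Mark.main)) (Closed.main Shift.main (Loc.main Shift.main))
    Edist.main Chain.main X hz hfree q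

end Pool.Agent.Results.MP_03d3f2_lc.ClosedToasts
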